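import Pool.Agent.H690R2.CQ.Ultra
import Pool.Agent.H690R2.CL.Gen

/-!
The clones `D h`, and the absence of precomplete clones above `D id`
-/

set_option autoImplicit false
set_option linter.unusedSectionVars false

namespace Pool.Agent.H690R2.CQ

open Set Pool.Agent.Results.MP_174cbb_lc.Regular

universe u

variable {X I : Type u} [DecidableEq X] (β : Base X I) (c : I → W X → ℕ)

/-- one step of computation -/
noncomputable def St (F : Finset I) (Y : Set ℕ) (h : ℕ → ℕ) (B : Finset X) : Finset X :=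
  U β c F (nx Y (h (M β B))) B

/-- the clones `D h` -/
def D (𝓤 : Ultrafilter ℕ) (h : ℕ → ℕ) : Set (Oper X) :=
  {q | ∃ Y ∈ 𝓤, ∃ F : Finset I, ∃ K : Finset X, ∃ k : ℕ, ∀ B : Finset X, K ⊆ B →
    ∀ x : Fin (q.1 + 1) → X, (∀ i, x i ∈ B) → q.2 x ∈ (St β c F Y h)^[k] B}

variable {β c}

theorem St_mono {F F' : Finset I} {Y Y' : Set ℕ} {h : ℕ → ℕ} {B B' : Finset X}
    (hF : F ⊆ F') (hY : ∀ x, ∃ y ∈ Y, x < y) (hY' : ∀ x, ∃ y ∈ Y', x < y) (hYY : Y' ⊆ Y)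
    (hm : Monotone h) (hB : B ⊆ B') : St β c F Y h B ⊆ St β c F' Y' h B' := by
  refine U_mono hF ?_ hB
  exact (nx_anti hY' hYY _).trans (nx_mono hY' (hm (M_mono β hB)))

theorem subset_St {F : Finset I} {Y : Set ℕ} {h : ℕ → ℕ} {B : Finset X} :
    B ⊆ St β c F Y h B := subset_U

theorem iterate_St_mono {F F' : Finset I} {Y Y' : Set ℕ} {h : ℕ → ℕ}
    (hF : F ⊆ F') (hY : ∀ x, ∃ y ∈ Y, x < y) (hY' : ∀ x, ∃ y ∈ Y', x < y) (hYY : Y' ⊆ Y)
    (hm : Monotone h) {k l : ℕ} (hkl : k ≤ l) {B B' : Finset X} (hB : B ⊆ B') :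
    (St β c F Y h)^[k] B ⊆ (St β c F' Y' h)^[l] B' := by
  have h1 : (St β c F Y h)^[k] B ⊆ (St β c F' Y' h)^[k] B' := by
    clear hkl
    induction k generalizing B B' with
    | zero => exact hB
    | succ k ih =>
      rw [Function.iterate_succ_apply, Function.iterate_succ_apply]
      exact ih (St_mono hF hY hY' hYY hm hB)
  refine h1.trans ?_
  induction l, hkl using Nat.le_induction with
  | base => exact Finset.Subset.refl _
  | succ l _ ih =>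
    rw [Function.iterate_succ_apply' (n := l)]
    exact ih.trans subset_St

variable {𝓤 : Ultrafilter ℕ}

theorem isClone_D (hU : ∀ Y ∈ 𝓤, ∀ x, ∃ y ∈ Y, x < y) {h : ℕ → ℕ} (hm : Monotone h) :
    IsClone (D β c 𝓤 h) := by
  classical
  refine ⟨fun n i => ⟨univ, Filter.univ_mem, ∅, ∅, 0, fun B _ x hx => hx i⟩, ?_⟩
  rintro n m f g ⟨Y, hY, F, K, k, hf⟩ hg
  choose Z hZ G L l hg using hg
  let V : Set ℕ := Y ∩ ⋂ i, Z i
  have hV : V ∈ 𝓤 := Filter.inter_mem hY (Filter.iInter_mem.2 hZ)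
  let F' : Finset I := F ∪ Finset.univ.biUnion G
  let K' : Finset X := K ∪ Finset.univ.biUnion L
  let l' : ℕ := Finset.univ.sup l
  refine ⟨V, hV, F', K', k + l', fun B hB x hx => ?_⟩
  have h1 : ∀ i, g i x ∈ (St β c F' V h)^[l'] B := fun i =>
    iterate_St_mono ((Finset.subset_biUnion_of_mem G (Finset.mem_univ i)).trans
      Finset.subset_union_right) (hU _ (hZ i)) (hU _ hV)
      (inter_subset_right.trans (iInter_subset _ i)) hm (Finset.le_sup (Finset.mem_univ i))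
      (Finset.Subset.refl _)
      (hg i B (((Finset.subset_biUnion_of_mem L (Finset.mem_univ i)).trans
        Finset.subset_union_right).trans hB) x hx)
  have h2 : K ⊆ (St β c F' V h)^[l'] B := (Finset.subset_union_left.trans hB).trans
    (iterate_St_mono (k := 0) (Finset.Subset.refl _) (hU _ hV) (hU _ hV) le_rfl hm (Nat.zero_le _)
      (Finset.Subset.refl _))
  rw [Function.iterate_add_apply]
  exact iterate_St_mono Finset.subset_union_left (hU _ hY) (hU _ hV) inter_subset_left hm le_rfl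
    (Finset.Subset.refl _) (hf _ h2 (fun i => g i x) h1)

/-- slow operations -/
theorem slow_mem (hU : ∀ Y ∈ 𝓤, ∀ x, ∃ y ∈ Y, x < y) {h : ℕ → ℕ} (hi : ∀ n, n ≤ h n)
    {n : ℕ} {f : (Fin (n + 1) → X) → X}
    (hf : ∀ x, ∃ m i, m ≤ β.ν (x i) ∧ f x = β.ι m) : (⟨n, f⟩ : Oper X) ∈ D β c 𝓤 h := by
  refine ⟨univ, Filter.univ_mem, ∅, ∅, 1, fun B _ x hx => ?_⟩
  obtain ⟨m, i, hm, hfx⟩ := hf x
  show f x ∈ St β c ∅ univ h B
  rw [hfx]
  refine ι_mem_U ?_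
  exact (hm.trans ((le_M β (hx i)).trans (hi _))).trans
    (nx_spec (hU univ Filter.univ_mem) _).2.le

theorem p_mem {h : ℕ → ℕ} : (⟨1, fun x => β.p (x 0) (x 1)⟩ : Oper X) ∈ D β c 𝓤 h :=
  ⟨univ, Filter.univ_mem, ∅, ∅, 1, fun _ _ x hx =>
    (mem_U β).2 (Or.inr (Or.inr (Or.inl ⟨x 0, hx 0, x 1, hx 1, rfl⟩)))⟩

theorem nx_mem (hU : ∀ Y ∈ 𝓤, ∀ x, ∃ y ∈ Y, x < y) {h : ℕ → ℕ} (hi : ∀ n, n ≤ h n) {Z : Set ℕ}
    (hZ : Z ∈ 𝓤) : (⟨0, fun x => β.ι (nx Z (β.ν (x 0)))⟩ : Oper X) ∈ D β c 𝓤 h :=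
  ⟨Z, hZ, ∅, ∅, 1, fun _ _ _ hx =>
    ι_mem_U (nx_mono (hU Z hZ) ((le_M β (hx 0)).trans (hi _)))⟩

theorem dec_mem (hU : ∀ Y ∈ 𝓤, ∀ x, ∃ y ∈ Y, x < y) {h : ℕ → ℕ} (hi : ∀ n, n ≤ h n) (i : I) :
    (⟨1, fun x => if bb (c i) (aa (c i) (x 0)) ≤ β.ν (x 1) then β.fn i (x 0) else x 0⟩ :
      Oper X) ∈ D β c 𝓤 h := by
  refine ⟨univ, Filter.univ_mem, {i}, ∅, 1, fun B _ x hx => ?_⟩
  show (if bb (c i) (aa (c i) (x 0)) ≤ β.ν (x 1) then β.fn i (x 0) else x 0) ∈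
    St β c {i} univ h B
  split_ifs with h1
  · refine (mem_U β).2 (Or.inr (Or.inr (Or.inr (Or.inl ⟨i, Finset.mem_singleton_self i, x 0, hx 0,
      ?_, rfl⟩))))
    exact (h1.trans ((le_M β (hx 1)).trans (hi _))).trans
      (nx_spec (hU univ Filter.univ_mem) _).2.le
  · exact subset_U (hx 0)

theorem a_mem {h : ℕ → ℕ} (i : I) :
    (⟨0, fun x => β.ι (aa (c i) (x 0))⟩ : Oper X) ∈ D β c 𝓤 h :=
  ⟨univ, Filter.univ_mem, {i}, ∅, 1, fun _ _ x hx =>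
    (mem_U β).2 (Or.inr (Or.inr (Or.inr (Or.inr ⟨i, Finset.mem_singleton_self i, x 0, hx 0,
      rfl⟩))))⟩

theorem D_id_subset (hU : ∀ Y ∈ 𝓤, ∀ x, ∃ y ∈ Y, x < y) {h : ℕ → ℕ} (hm : Monotone h)
    (hi : ∀ n, n ≤ h n) : D β c 𝓤 id ⊆ D β c 𝓤 h := by
  rintro q ⟨Y, hY, F, K, k, hq⟩
  refine ⟨Y, hY, F, K, k, fun B hB x hx => ?_⟩
  have h1 : ∀ (k : ℕ) (B B' : Finset X), B ⊆ B' →
      (St β c F Y id)^[k] B ⊆ (St β c F Y h)^[k] B' := by
    intro k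
    induction k with
    | zero => exact fun _ _ h => h
    | succ k ih =>
      intro B B' hBB
      rw [Function.iterate_succ_apply, Function.iterate_succ_apply]
      refine ih _ _ (U_mono (Finset.Subset.refl _) (nx_mono (hU Y hY) ?_) hBB)
      exact (M_mono β hBB).trans (hi _)
  exact h1 k B B (Finset.Subset.refl _) (hq B hB x hx)

theorem Esc.lt_iterate {F : Finset I} {h : ℕ → ℕ} (hm : Monotone h) {Y : Set ℕ}
    (hY : ∀ x, ∃ y ∈ Y, x < y) {s : ℕ} :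
    ∀ {k : ℕ} {B : Finset X}, Esc β c F h Y s k B → M β ((St β c F Y h)^[k] B) < s
  | 0, _, he => he
  | k + 1, B, ⟨N, hN, h1, he⟩ => by
    rw [Function.iterate_succ_apply]
    refine Esc.lt_iterate hm hY (he.anti hm (Finset.Subset.refl _) ?_)
    exact U_mono (Finset.Subset.refl _) (nx_le hN h1) (Finset.Subset.refl _)

/-- `D (hh j)` is a proper clone -/
theorem s_notMem {j : I} (hU : ∀ Y ∈ 𝓤, ∀ x, ∃ y ∈ Y, x < y)
    (hS : ∀ (F : Finset I) (k : ℕ) (K : Finset X) (Y : Set ℕ), Y ∈ 𝓤 →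
        ∃ n, Esc β c F (hh β j) Y (ss (c j) n) k (ini β K n)) :
    (⟨0, fun x => β.ι (ss (c j) (β.ν (x 0)))⟩ : Oper X) ∉ D β c 𝓤 (hh β j) := by
  rintro ⟨Y, hY, F, K, k, hk⟩
  obtain ⟨n, hn⟩ := hS F k K Y hY
  have h1 := hn.lt_iterate (hh_mono β j) (hU Y hY)
  have h2 : β.ι (ss (c j) (β.ν (β.ι n))) ∈ (St β c F Y (hh β j))^[k] (ini β K n) :=
    hk (ini β K n) subset_ini (fun _ => β.ι n) fun _ => (mem_ini β).2 (Or.inr ⟨n, le_rfl, rfl⟩)
  have h3 := le_M β h2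
  rw [β.νι, β.νι] at h3
  omega

theorem Esc.theta_lt {F : Finset I} {h : ℕ → ℕ} (hm : Monotone h) {Y : Set ℕ}
    (hY : ∀ x, ∃ y ∈ Y, x < y) {s : ℕ} :
    ∀ {k : ℕ} {B : Finset X}, Esc β c F h Y s k B → (fun z => nx Y (h z))^[k] (M β B) < s
  | 0, _, he => he
  | k + 1, B, ⟨N, hN, h1, he⟩ => by
    rw [Function.iterate_succ_apply]
    have h2 : Monotone fun z => nx Y (h z) := fun _ _ hab => nx_mono hY (hm hab)
    refine lt_of_le_of_lt (h2.iterate k ?_) (Esc.theta_lt hm hY he)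
    exact (nx_le hN h1).trans le_M_U

end Pool.Agent.H690R2.CQ
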