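import Mathlib
import Pool.Agent.Helper669.CloneComb

/-!
Combinatorial part: decoders that are generic, and an ultrafilter on `ℕ` without sparse sets
-/

set_option autoImplicit false

namespace Pool.Agent.H690R2.CQ

open Set

universe u

/-- index set of the coordinates of one generic function -/
abbrev W (X : Type u) : Type u := X ⊕ ℕ ⊕ ℕ

variable {X I : Type u}

def aa (G : W X → ℕ) (x : X) : ℕ := G (Sum.inl x)
def bb (G : W X → ℕ) (n : ℕ) : ℕ := G (Sum.inr (Sum.inl n))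
def ss (G : W X → ℕ) (n : ℕ) : ℕ := G (Sum.inr (Sum.inr n))

/-- fixed data -/
structure Base (X I : Type u) where
  ι : ℕ → X
  ν : X → ℕ
  p : X → X → X
  fn : I → X → X
  νι : ∀ n, ν (ι n) = n

section

variable [DecidableEq X] (β : Base X I)

/-- the values in `ℕ` that occur in `B` are at most `M B` -/
def M (B : Finset X) : ℕ := B.sup β.ν

theorem M_mono {B B' : Finset X} (h : B ⊆ B') : M β B ≤ M β B' := Finset.sup_mono h

theorem le_M {B : Finset X} {x : X} (h : x ∈ B) : β.ν x ≤ M β B := Finset.le_sup h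

/-- one round of computation with the decoders in `F` and the integers up to `N` -/
def U (c : I → W X → ℕ) (F : Finset I) (N : ℕ) (B : Finset X) : Finset X :=
  B ∪ (Finset.range (N + 1)).image β.ι ∪ (B ×ˢ B).image (fun q => β.p q.1 q.2) ∪
    ((F ×ˢ B).filter fun q => bb (c q.1) (aa (c q.1) q.2) ≤ N).image (fun q => β.fn q.1 q.2) ∪
    (F ×ˢ B).image fun q => β.ι (aa (c q.1) q.2)

theorem mem_U {c : I → W X → ℕ} {F : Finset I} {N : ℕ} {B : Finset X} {y : X} :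
    y ∈ U β c F N B ↔ y ∈ B ∨ (∃ n ≤ N, β.ι n = y) ∨ (∃ x ∈ B, ∃ x' ∈ B, β.p x x' = y) ∨
      (∃ i ∈ F, ∃ x ∈ B, bb (c i) (aa (c i) x) ≤ N ∧ β.fn i x = y) ∨
      ∃ i ∈ F, ∃ x ∈ B, β.ι (aa (c i) x) = y := by
  simp only [U, Finset.mem_union, Finset.mem_image, Finset.mem_range, Finset.mem_product,
    Finset.mem_filter, Prod.exists, Nat.lt_succ_iff, or_assoc]
  refine or_congr Iff.rfl (or_congr Iff.rfl (or_congr ?_ (or_congr ?_ ?_)))
  · constructor
    · rintro ⟨a, b, ⟨h1, h2⟩, h3⟩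
      exact ⟨a, h1, b, h2, h3⟩
    · rintro ⟨a, h1, b, h2, h3⟩
      exact ⟨a, b, ⟨h1, h2⟩, h3⟩
  · constructor
    · rintro ⟨a, b, ⟨⟨h1, h2⟩, h4⟩, h3⟩
      exact ⟨a, h1, b, h2, h4, h3⟩
    · rintro ⟨a, h1, b, h2, h4, h3⟩
      exact ⟨a, b, ⟨⟨h1, h2⟩, h4⟩, h3⟩
  · constructor
    · rintro ⟨a, b, ⟨h1, h2⟩, h3⟩
      exact ⟨a, h1, b, h2, h3⟩
    · rintro ⟨a, h1, b, h2, h3⟩
      exact ⟨a, b, ⟨h1, h2⟩, h3⟩

variable {β} {c : I → W X → ℕ}

theorem U_mono {F F' : Finset I} {N N' : ℕ} {B B' : Finset X} (hF : F ⊆ F') (hN : N ≤ N')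
    (hB : B ⊆ B') : U β c F N B ⊆ U β c F' N' B' := by
  intro y hy
  rw [mem_U] at hy ⊢
  rcases hy with h | ⟨n, hn, h⟩ | ⟨x, hx, x', hx', h⟩ | ⟨i, hi, x, hx, h1, h⟩ | ⟨i, hi, x, hx, h⟩
  · exact Or.inl (hB h)
  · exact Or.inr (Or.inl ⟨n, hn.trans hN, h⟩)
  · exact Or.inr (Or.inr (Or.inl ⟨x, hB hx, x', hB hx', h⟩))
  · exact Or.inr (Or.inr (Or.inr (Or.inl ⟨i, hF hi, x, hB hx, h1.trans hN, h⟩)))
  · exact Or.inr (Or.inr (Or.inr (Or.inr ⟨i, hF hi, x, hB hx, h⟩)))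

theorem subset_U {F : Finset I} {N : ℕ} {B : Finset X} : B ⊆ U β c F N B := fun _ h =>
  (mem_U β).2 (Or.inl h)

theorem ι_mem_U {F : Finset I} {N n : ℕ} (hn : n ≤ N) {B : Finset X} : β.ι n ∈ U β c F N B :=
  (mem_U β).2 (Or.inr (Or.inl ⟨n, hn, rfl⟩))

theorem le_M_U {F : Finset I} {N : ℕ} {B : Finset X} : N ≤ M β (U β c F N B) := by
  have := le_M β (ι_mem_U (β := β) (c := c) (F := F) (B := B) (le_refl N))
  rwa [β.νι] at this

theorem U_congr {c' : I → W X → ℕ} {F : Finset I} (h : ∀ j ∈ F, c j = c' j) (N : ℕ)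
    (B : Finset X) : U β c F N B = U β c' F N B := by
  ext y
  rw [mem_U, mem_U]
  refine or_congr Iff.rfl (or_congr Iff.rfl (or_congr Iff.rfl (or_congr ?_ ?_)))
  · constructor
    · rintro ⟨i, hi, hx⟩
      exact ⟨i, hi, by rwa [← h i hi]⟩
    · rintro ⟨i, hi, hx⟩
      exact ⟨i, hi, by rwa [h i hi]⟩
  · constructor
    · rintro ⟨i, hi, hx⟩
      exact ⟨i, hi, by rwa [← h i hi]⟩
    · rintro ⟨i, hi, hx⟩
      exact ⟨i, hi, by rwa [h i hi]⟩

variable (β c)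

/-- there is a computation with `k` rounds from `B` that stays below `s`, in which the integers
allowed are elements of `Y` -/
def Esc (F : Finset I) (h : ℕ → ℕ) (Y : Set ℕ) (s : ℕ) : ℕ → Finset X → Prop
  | 0, B => M β B < s
  | k + 1, B => ∃ N ∈ Y, h (M β B) < N ∧ Esc F h Y s k (U β c F N B)

/-- the starting set -/
def ini (K : Finset X) (n : ℕ) : Finset X := K ∪ (Finset.range (n + 1)).image β.ι

theorem mem_ini {K : Finset X} {n : ℕ} {y : X} :
    y ∈ ini β K n ↔ y ∈ K ∨ ∃ m ≤ n, β.ι m = y := by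
  simp [ini, Nat.lt_succ_iff]

variable {β c}

theorem subset_ini {K : Finset X} {n : ℕ} : K ⊆ ini β K n := fun _ h => (mem_ini β).2 (Or.inl h)

theorem ini_mono {K K' : Finset X} {n n' : ℕ} (hK : K ⊆ K') (hn : n ≤ n') :
    ini β K n ⊆ ini β K' n' := by
  intro y hy
  rw [mem_ini] at hy ⊢
  rcases hy with h | ⟨m, hm, h⟩
  · exact Or.inl (hK h)
  · exact Or.inr ⟨m, hm.trans hn, h⟩

theorem Esc.lt {F : Finset I} {h : ℕ → ℕ} {Y : Set ℕ} {s : ℕ} :
    ∀ {k : ℕ} {B : Finset X}, Esc β c F h Y s k B → M β B < s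
  | 0, _, he => he
  | _ + 1, _, ⟨_, _, _, he⟩ => (M_mono β subset_U).trans_lt he.lt

theorem Esc.anti {F F' : Finset I} {h : ℕ → ℕ} (hm : Monotone h) {Y : Set ℕ} {s : ℕ}
    (hF : F' ⊆ F) : ∀ {k : ℕ} {B B' : Finset X}, B' ⊆ B → Esc β c F h Y s k B →
      Esc β c F' h Y s k B'
  | 0, _, _, hB, he => (M_mono β hB).trans_lt he
  | _ + 1, _, _, hB, ⟨N, hN, h1, he⟩ =>
    ⟨N, hN, (hm (M_mono β hB)).trans_lt h1, Esc.anti hm hF (U_mono hF le_rfl hB) he⟩

theorem Esc.pred {F : Finset I} {h : ℕ → ℕ} (hm : Monotone h) {Y : Set ℕ} {s : ℕ} {k : ℕ}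
    {B : Finset X} (he : Esc β c F h Y s (k + 1) B) : Esc β c F h Y s k B := by
  obtain ⟨N, _, _, he⟩ := he
  exact he.anti hm (Finset.Subset.refl _) subset_U

theorem Esc.of_le {F : Finset I} {h : ℕ → ℕ} (hm : Monotone h) {Y : Set ℕ} {s : ℕ} {k l : ℕ}
    (hkl : k ≤ l) {B : Finset X} (he : Esc β c F h Y s l B) : Esc β c F h Y s k B := by
  induction l, hkl using Nat.le_induction with
  | base => exact he
  | succ l _ ih => exact ih (he.pred hm)

theorem Esc.union {F : Finset I} {h : ℕ → ℕ} (hm : Monotone h) {Y Y' : Set ℕ} {s : ℕ} :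
    ∀ (r k k' : ℕ), k + k' = r → ∀ {B : Finset X}, Esc β c F h (Y ∪ Y') s r B →
      Esc β c F h Y s k B ∨ Esc β c F h Y' s k' B := by
  intro r
  induction r with
  | zero =>
    intro k k' hk B he
    obtain ⟨rfl, rfl⟩ : k = 0 ∧ k' = 0 := by omega
    exact Or.inl he
  | succ r ih =>
    intro k k' hk B he
    rcases Nat.eq_zero_or_pos k with rfl | hk0
    · exact Or.inl (show M β B < s from he.lt)
    rcases Nat.eq_zero_or_pos k' with rfl | hk0'
    · exact Or.inr (show M β B < s from he.lt)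
    obtain ⟨k, rfl⟩ : ∃ l, k = l + 1 := ⟨k - 1, by omega⟩
    obtain ⟨k', rfl⟩ : ∃ l, k' = l + 1 := ⟨k' - 1, by omega⟩
    obtain ⟨N, hN, h1, he⟩ := he
    rcases hN with hN | hN
    · rcases ih k (k' + 1) (by omega) he with h2 | h2
      · exact Or.inl ⟨N, hN, h1, h2⟩
      · exact Or.inr (h2.anti hm (Finset.Subset.refl _) subset_U)
    · rcases ih (k + 1) k' (by omega) he with h2 | h2
      · exact Or.inl (h2.anti hm (Finset.Subset.refl _) subset_U)
      · exact Or.inr ⟨N, hN, h1, h2⟩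

theorem Esc.congr {c' : I → W X → ℕ} {F : Finset I} {h : ℕ → ℕ} {Y : Set ℕ} {s : ℕ}
    (hc : ∀ j ∈ F, c j = c' j) : ∀ {k : ℕ} {B : Finset X}, Esc β c F h Y s k B →
      Esc β c' F h Y s k B
  | 0, _, he => he
  | _ + 1, _, ⟨N, hN, h1, he⟩ => ⟨N, hN, h1, by
      have := Esc.congr hc he
      rwa [U_congr hc] at this⟩

variable (β)

/-- the growth function attached to an index -/
def hh (i : I) (n : ℕ) : ℕ := n + 1 + (Finset.range (n + 1)).sup fun m => β.ν (β.fn i (β.ι m))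

theorem hh_mono (i : I) : Monotone (hh β i) := by
  intro n m hnm
  have : (Finset.range (n + 1)).sup (fun m => β.ν (β.fn i (β.ι m))) ≤
      (Finset.range (m + 1)).sup fun m => β.ν (β.fn i (β.ι m)) :=
    Finset.sup_mono (Finset.range_mono (by omega))
  unfold hh
  omega

theorem lt_hh (i : I) (n : ℕ) : n < hh β i n := by
  unfold hh
  omega

theorem le_hh (i : I) (n : ℕ) : β.ν (β.fn i (β.ι n)) ≤ hh β i n := by
  have : β.ν (β.fn i (β.ι n)) ≤ (Finset.range (n + 1)).sup fun m => β.ν (β.fn i (β.ι m)) :=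
    Finset.le_sup (f := fun m => β.ν (β.fn i (β.ι m))) (Finset.mem_range.2 (Nat.lt_succ_self n))
  unfold hh
  omega

variable (c)

/-- sparse sets with indices in `F` do not cover long intervals -/
def Dag (F : Finset I) (k : ℕ) (K : Finset X) (n : ℕ) : Prop :=
  ∃ m, ∀ Y : I → Set ℕ, (∀ x, n ≤ x → x < m → ∃ j ∈ F, x ∈ Y j) →
    ∃ j ∈ F, ∃ n', ss (c j) n' ≤ m ∧
      Esc β c F (hh β j) (Y j) (ss (c j) n') k (ini β K n')

variable {β c}

theorem Dag.congr {c' : I → W X → ℕ} {F : Finset I} {k : ℕ} {K : Finset X} {n : ℕ}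
    (hc : ∀ j ∈ F, c j = c' j) (hd : Dag β c F k K n) : Dag β c' F k K n := by
  obtain ⟨m, hm⟩ := hd
  refine ⟨m, fun Y hY => ?_⟩
  obtain ⟨j, hj, n', h1, h2⟩ := hm Y hY
  exact ⟨j, hj, n', by rwa [← hc j hj], by rw [← hc j hj]; exact h2.congr hc⟩

theorem dag_empty (k : ℕ) (K : Finset X) (n : ℕ) : Dag β c ∅ k K n := by
  refine ⟨n + 1, fun Y hY => ?_⟩
  obtain ⟨j, hj, _⟩ := hY n le_rfl (Nat.lt_succ_self n)
  exact absurd hj (Finset.notMem_empty j)

end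

end Pool.Agent.H690R2.CQ
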