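import Pool.Agent.H690R2.CQ.Main

/-!
If `ℕ ^ X` is not the union of fewer than `2 ^ #X` nowhere dense sets, the clone lattice on `X` is
not dually atomic
-/

set_option autoImplicit false

namespace Pool.Agent.H690R2.CQ

open Set Cardinal Pool.Agent.Results.MP_174cbb_lc.Regular

universe u

/-- Baire category theorem for fewer than `κ` dense open sets in `ℕ ^ X` -/
def BC (X : Type u) (κ : Cardinal.{u}) : Prop :=
  ∀ 𝓓 : Set (Set (X → ℕ)), #𝓓 < κ → (∀ D ∈ 𝓓, IsOpen D ∧ Dense D) → (⋂₀ 𝓓).Nonempty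

theorem BC.congr {X Y : Type u} {κ : Cardinal.{u}} (e : Y ≃ X) (h : BC X κ) : BC Y κ := by
  intro 𝓓 hcard h𝓓
  let φ : (Y → ℕ) ≃ₜ (X → ℕ) := Homeomorph.piCongrLeft (Y := fun _ => ℕ) e
  obtain ⟨G, hG⟩ := h ((fun D => φ '' D) '' 𝓓) (mk_image_le.trans_lt hcard) (by
    rintro _ ⟨D, hD, rfl⟩
    refine ⟨φ.isOpenMap D (h𝓓 D hD).1, ?_⟩
    exact φ.surjective.denseRange.dense_image φ.continuous (h𝓓 D hD).2)
  refine ⟨φ.symm G, fun D hD => ?_⟩
  obtain ⟨G', hG', h1⟩ := hG _ ⟨D, hD, rfl⟩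
  have h1' : φ G' = G := h1
  rw [← h1', φ.symm_apply_apply]
  exact hG'

theorem not_duallyAtomic (X : Type u) [Infinite X] (h : BC X (2 ^ #X)) : ¬ DuallyAtomic X := by
  classical
  intro hda
  have hX : ℵ₀ ≤ #X := aleph0_le_mk X
  have hW : #(W X) = #X := by
    rw [mk_sum, mk_sum]
    simp only [lift_uzero, mk_nat, lift_aleph0, aleph0_add_aleph0]
    exact add_eq_left hX hX
  obtain ⟨e⟩ := Cardinal.eq.1 hW
  have hBC : BC (W X) (2 ^ #X) := h.congr e
  have hI : #(X → X) = 2 ^ #X := by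
    rw [← power_def, power_self_eq hX]
  obtain ⟨_, _, hord⟩ := exists_ord_eq_type_lt (X → X)
  -- the fixed data
  have hpair : #(X × X) ≤ #X := by
    rw [mk_prod, lift_id]
    exact (mul_eq_self hX).le
  obtain ⟨p⟩ := (Cardinal.le_def _ _).1 hpair
  let ι : ℕ ↪ X := Infinite.natEmbedding X
  let β : Base X (X → X) :=
    { ι := ι
      ν := Function.invFun ι
      p := fun a b => p (a, b)
      fn := id
      νι := Function.leftInverse_invFun ι.injective }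
  obtain ⟨c, hc⟩ := exists_c (β := β) (X := X) (I := X → X) (by rw [hI]; exact cantor _)
    (fun α => mk_Iio_lt α hord) (by rw [hI]; exact hBC)
  obtain ⟨𝓤, h𝓤1, h𝓤2⟩ := exists_ultra' hc
  have hU : ∀ Y ∈ 𝓤, ∀ x : ℕ, ∃ y ∈ Y, x < y := by
    intro Y hY x
    obtain ⟨y, hy1, hy2⟩ := 𝓤.nonempty_of_mem (Filter.inter_mem hY (h𝓤1 (x + 1)))
    exact ⟨y, hy1, hy2⟩
  have hne : D β c 𝓤 id ≠ Set.univ := by
    intro heq
    have h1 := s_notMem (c := c) (j := (id : X → X)) hU fun F k K Y hY => h𝓤2 F _ k K Y hY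
    refine h1 (D_id_subset hU (hh_mono β _) (fun n => (lt_hh β _ n).le) ?_)
    rw [heq]
    exact mem_univ _
  obtain ⟨E, hE, hDE⟩ := hda _ (isClone_D hU monotone_id) hne
  refine no_precomplete hU h𝓤2 ?_ Function.surjective_id E hE hDE
  intro a b a' b' hab
  exact Prod.mk.inj (p.injective hab)

end Pool.Agent.H690R2.CQ
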