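import Pool.Agent.H690R2.CQ.Clones

/-!
No precomplete clone lies above `D id`
-/

set_option autoImplicit false
set_option linter.unusedSectionVars false

namespace Pool.Agent.H690R2.CQ

open Set Pool.Agent.Results.MP_174cbb_lc.Regular

universe u

variable {X I : Type u} [DecidableEq X] {β : Base X I} {c : I → W X → ℕ}

/-- the operation of `X` induced by a function on `ℕ` -/
def bar (β : Base X I) (w : ℕ → ℕ) : Oper X := ⟨0, fun x => β.ι (w (β.ν (x 0)))⟩

/-- `w` is a growth function of the clone `E` -/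
structure GF (β : Base X I) (E : Set (Oper X)) (w : ℕ → ℕ) : Prop where
  mono : Monotone w
  le : ∀ n, n ≤ w n
  mem : bar β w ∈ E

/-- sequences computable with the help of `h` -/
def QQ (β : Base X I) (E : Set (Oper X)) (h : ℕ → ℕ) : Set (ℕ → X) :=
  {u | ∃ d : (Fin 2 → X) → X, (⟨1, d⟩ : Oper X) ∈ E ∧ ∃ w, GF β E w ∧ ∃ k : ℕ,
    ∀ n, u n = d ![β.ι n, β.ι ((fun z => h (w z))^[k] n)]}

theorem iter_mono {h w w' : ℕ → ℕ} (hm : Monotone h) (hw : Monotone w)
    (hi : ∀ n, n ≤ h (w' n)) (hww : ∀ n, w n ≤ w' n) {k l : ℕ} (hkl : k ≤ l) (n : ℕ) :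
    (fun z => h (w z))^[k] n ≤ (fun z => h (w' z))^[l] n := by
  have h1 : (fun z => h (w z))^[k] n ≤ (fun z => h (w' z))^[k] n := by
    clear hkl
    induction k with
    | zero => exact le_rfl
    | succ k ih =>
      rw [Function.iterate_succ_apply', Function.iterate_succ_apply']
      exact hm ((hw ih).trans (hww _))
  exact h1.trans (Function.monotone_iterate_of_id_le hi hkl n)

section

variable {E : Set (Oper X)} (hE : IsClone E)
  (hslow : ∀ (n : ℕ) (f : (Fin (n + 1) → X) → X),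
    (∀ x, ∃ m i, m ≤ β.ν (x i) ∧ f x = β.ι m) → (⟨n, f⟩ : Oper X) ∈ E)
include hE hslow

theorem bin_comp {d : (Fin 2 → X) → X} (hd : (⟨1, d⟩ : Oper X) ∈ E) {n : ℕ}
    {f g : (Fin (n + 1) → X) → X} (hf : (⟨n, f⟩ : Oper X) ∈ E) (hg : (⟨n, g⟩ : Oper X) ∈ E) :
    (⟨n, fun x => d ![f x, g x]⟩ : Oper X) ∈ E := by
  have h1 := hE.2 1 n d (![f, g]) hd (by
    intro i
    fin_cases i
    · exact hf
    · exact hg)
  have h2 : (fun x => d ![f x, g x]) = fun x => d fun i => (![f, g] : Fin 2 → _) i x := by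
    funext x
    congr 1
    funext i
    fin_cases i <;> rfl
  rw [h2]
  exact h1

theorem max_mem {n : ℕ} {f g : (Fin (n + 1) → X) → X} (hf : (⟨n, f⟩ : Oper X) ∈ E)
    (hg : (⟨n, g⟩ : Oper X) ∈ E) :
    (⟨n, fun x => β.ι (max (β.ν (f x)) (β.ν (g x)))⟩ : Oper X) ∈ E := by
  have h1 : (⟨1, fun x => β.ι (max (β.ν (x 0)) (β.ν (x 1)))⟩ : Oper X) ∈ E := by
    refine hslow 1 _ fun x => ?_
    rcases le_total (β.ν (x 0)) (β.ν (x 1)) with h | h
    · exact ⟨β.ν (x 1), 1, le_rfl, by rw [max_eq_right h]⟩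
    · exact ⟨β.ν (x 0), 0, le_rfl, by rw [max_eq_left h]⟩
  exact bin_comp hE hslow h1 hf hg

theorem GF.max {w w' : ℕ → ℕ} (hw : GF β E w) (hw' : GF β E w') :
    GF β E fun z => max (w z) (w' z) := by
  refine ⟨fun a b hab => max_le_max (hw.mono hab) (hw'.mono hab),
    fun n => (hw.le n).trans (le_max_left _ _), ?_⟩
  have h1 := max_mem hE hslow (f := (bar β w).2) (g := (bar β w').2) hw.mem hw'.mem
  have h2 : bar β (fun z => Max.max (w z) (w' z)) =
      ⟨0, fun x => β.ι (Max.max (β.ν ((bar β w).2 x)) (β.ν ((bar β w').2 x)))⟩ := by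
    unfold bar
    simp only [β.νι]
  rw [h2]
  exact h1

theorem GF.id : GF β E (fun n => n) := by
  refine ⟨monotone_id, fun n => le_rfl, ?_⟩
  exact hslow 0 _ fun x => ⟨β.ν (x 0), 0, le_rfl, rfl⟩

/-- finitely many growth functions have a common bound -/
theorem GF.exists_le {n : ℕ} (w : Fin n → ℕ → ℕ) (hw : ∀ i, GF β E (w i)) :
    ∃ w', GF β E w' ∧ ∀ i z, w i z ≤ w' z := by
  induction n with
  | zero => exact ⟨_, GF.id hE hslow, fun i => i.elim0⟩
  | succ n ih =>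
    obtain ⟨w', hw', hle⟩ := ih (fun i => w i.castSucc) fun i => hw _
    refine ⟨_, GF.max hE hslow hw' (hw (Fin.last n)), fun i z => ?_⟩
    induction i using Fin.lastCases with
    | last => exact le_max_right _ _
    | cast i => exact (hle i z).trans (le_max_left _ _)

/-- values of a binary operation -/
theorem exists_GF {d : (Fin 2 → X) → X} (hd : (⟨1, d⟩ : Oper X) ∈ E) :
    ∃ w, GF β E w ∧ ∀ a b z, a ≤ z → b ≤ z → β.ν (d ![β.ι a, β.ι b]) ≤ w z := by
  let T : ℕ → Finset (ℕ × ℕ) := fun z => Finset.range (z + 1) ×ˢ Finset.range (z + 1)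
  let f : ℕ × ℕ → ℕ := fun q => β.ν (d ![β.ι q.1, β.ι q.2])
  have hT : ∀ z, (T z).Nonempty := fun z => ⟨(0, 0), by simp [T]⟩
  have hmax : ∀ z, ∃ q ∈ T z, ∀ q' ∈ T z, f q' ≤ f q := fun z => Finset.exists_max_image _ _ (hT z)
  choose q hq hqm using hmax
  have hq1 : ∀ z, (q z).1 ≤ z := fun z => by
    have := (Finset.mem_product.1 (hq z)).1
    exact Nat.lt_succ_iff.1 (Finset.mem_range.1 this)
  have hq2 : ∀ z, (q z).2 ≤ z := fun z => by
    have := (Finset.mem_product.1 (hq z)).2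
    exact Nat.lt_succ_iff.1 (Finset.mem_range.1 this)
  refine ⟨fun z => max z (f (q z)), ⟨?_, fun n => le_max_left _ _, ?_⟩, ?_⟩
  · intro a b hab
    refine max_le_max hab (hqm b _ ?_)
    have h1 := hq1 a
    have h2 := hq2 a
    simp only [T, Finset.mem_product, Finset.mem_range]
    omega
  · have h1 : (⟨0, fun x => β.ι ((q (β.ν (x 0))).1)⟩ : Oper X) ∈ E :=
      hslow 0 _ fun x => ⟨_, 0, hq1 _, rfl⟩
    have h2 : (⟨0, fun x => β.ι ((q (β.ν (x 0))).2)⟩ : Oper X) ∈ E :=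
      hslow 0 _ fun x => ⟨_, 0, hq2 _, rfl⟩
    exact max_mem hE hslow (hE.1 0 0) (bin_comp hE hslow hd h1 h2)
  · intro a b z ha hb
    refine (hqm z (a, b) ?_).trans (le_max_right _ _)
    simp only [T, Finset.mem_product, Finset.mem_range]
    omega

variable {h : ℕ → ℕ} (hm : Monotone h) (hi : ∀ n, n ≤ h n)
include hm hi

/-- closure under the operations of `E` -/
theorem QQ_closed {r : ℕ} {e : (Fin (r + 1) → X) → X} (he : (⟨r, e⟩ : Oper X) ∈ E)
    (u : Fin (r + 1) → ℕ → X) (hu : ∀ l, u l ∈ QQ β E h) :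
    (fun n => e fun l => u l n) ∈ QQ β E h := by
  choose d hd w hw k hk using hu
  obtain ⟨w', hw', hle⟩ := GF.exists_le hE hslow w hw
  let k' : ℕ := Finset.univ.sup k
  have hN : ∀ l n, (fun z => h (w l z))^[k l] n ≤ (fun z => h (w' z))^[k'] n := fun l n =>
    iter_mono hm (hw l).mono (fun n => (hw'.le n).trans (hi _)) (hle l)
      (Finset.le_sup (Finset.mem_univ l)) n
  let S : Fin (r + 1) → (Fin 2 → X) → X := fun l x =>
    β.ι (min ((fun z => h (w l z))^[k l] (β.ν (x 0))) (β.ν (x 1)))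
  have hS : ∀ l, (⟨1, S l⟩ : Oper X) ∈ E := fun l =>
    hslow 1 _ fun x => ⟨_, 1, min_le_right _ _, rfl⟩
  have h1 : ∀ l, (⟨1, fun x => d l ![x 0, S l x]⟩ : Oper X) ∈ E := fun l =>
    bin_comp hE hslow (hd l) (hE.1 1 0) (hS l)
  refine ⟨fun x => e fun l => d l ![x 0, S l x], hE.2 r 1 e _ he h1, w', hw', k', fun n => ?_⟩
  have h2 : ∀ l, S l ![β.ι n, β.ι ((fun z => h (w' z))^[k'] n)] =
      β.ι ((fun z => h (w l z))^[k l] n) := by
    intro l
    simp only [S, Matrix.cons_val_zero, Matrix.cons_val_one, β.νι]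
    rw [min_eq_left (hN l n)]
  simp only [h2, Matrix.cons_val_zero]
  congr 1
  funext l
  exact hk l n

/-- closure under `h` -/
theorem QQ_h {u : ℕ → X} (hu : u ∈ QQ β E h) : (fun n => β.ι (h (β.ν (u n)))) ∈ QQ β E h := by
  obtain ⟨d, hd, w, hw, k, hk⟩ := hu
  obtain ⟨w₁, hw₁, hle₁⟩ := exists_GF hE hslow hd
  have hw' := GF.max hE hslow hw hw₁
  refine ⟨fun x => β.ι (min (h (β.ν (u (β.ν (x 0))))) (β.ν (x 1))),
    hslow 1 _ fun x => ⟨_, 1, min_le_right _ _, rfl⟩, _, hw', k + 1, fun n => ?_⟩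
  simp only [Matrix.cons_val_zero, Matrix.cons_val_one, β.νι]
  rw [min_eq_left]
  rw [Function.iterate_succ_apply']
  have hN : (fun z => h (w z))^[k] n ≤ (fun z => h (max (w z) (w₁ z)))^[k] n :=
    iter_mono hm hw.mono (fun n => (hw'.le n).trans (hi _)) (fun _ => le_max_left _ _) le_rfl n
  refine hm ?_
  rw [hk n]
  refine (hle₁ n _ ((fun z => h (max (w z) (w₁ z)))^[k] n) ?_ hN).trans (le_max_right _ _)
  exact Function.id_le_iterate_of_id_le (fun n => (hw'.le n).trans (hi _)) k n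

theorem QQ_ι : β.ι ∈ QQ β E h := by
  refine ⟨fun x => x 0, hE.1 1 0, _, GF.id hE hslow, 0, fun n => rfl⟩

theorem QQ_bound {s : ℕ → ℕ} (hs : (fun n => β.ι (s n)) ∈ QQ β E h) :
    ∃ w, GF β E w ∧ ∃ k, ∀ n, s n ≤ w ((fun z => h (w z))^[k] n) := by
  obtain ⟨d, hd, w, hw, k, hk⟩ := hs
  obtain ⟨w₁, hw₁, hle₁⟩ := exists_GF hE hslow hd
  have hw' := GF.max hE hslow hw hw₁
  refine ⟨_, hw', k, fun n => ?_⟩
  have hN : (fun z => h (w z))^[k] n ≤ (fun z => h (max (w z) (w₁ z)))^[k] n :=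
    iter_mono hm hw.mono (fun n => (hw'.le n).trans (hi _)) (fun _ => le_max_left _ _) le_rfl n
  have h1 := hk n
  have h2 : s n = β.ν (d ![β.ι n, β.ι ((fun z => h (w z))^[k] n)]) := by
    rw [← h1, β.νι]
  rw [h2]
  refine (hle₁ n _ ((fun z => h (max (w z) (w₁ z)))^[k] n) ?_ hN).trans (le_max_right _ _)
  exact Function.id_le_iterate_of_id_le (fun n => (hw'.le n).trans (hi _)) k n

end

/-- the operations preserving a set of sequences -/
def Pol (Q : Set (ℕ → X)) : Set (Oper X) :=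
  {q | ∀ u : Fin (q.1 + 1) → ℕ → X, (∀ l, u l ∈ Q) → (fun n => q.2 fun l => u l n) ∈ Q}

theorem isClone_Pol (Q : Set (ℕ → X)) : IsClone (Pol Q) :=
  ⟨fun _ i u hu => hu i, fun n m f g hf hg u hu =>
    hf (fun i n => g i fun l => u l n) fun i => hg i u hu⟩

variable {𝓤 : Ultrafilter ℕ}

theorem no_precomplete (hU : ∀ Y ∈ 𝓤, ∀ x, ∃ y ∈ Y, x < y)
    (hS : ∀ (F : Finset I) (j : I) (k : ℕ) (K : Finset X) (Y : Set ℕ), Y ∈ 𝓤 →
        ∃ n, Esc β c F (hh β j) Y (ss (c j) n) k (ini β K n))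
    (hp : ∀ a b a' b', β.p a b = β.p a' b' → a = a' ∧ b = b')
    (hfn : Function.Surjective β.fn) (E : Set (Oper X)) (hE : IsPrecomplete E)
    (hDE : D β c 𝓤 id ⊆ E) : False := by
  obtain ⟨hE, hne, hmax⟩ := hE
  have hidle : ∀ n : ℕ, n ≤ id n := fun n => le_rfl
  have hslow : ∀ (n : ℕ) (f : (Fin (n + 1) → X) → X),
      (∀ x, ∃ m i, m ≤ β.ν (x i) ∧ f x = β.ι m) → (⟨n, f⟩ : Oper X) ∈ E := fun n f hf =>
    hDE (slow_mem hU hidle hf)
  -- a unary operation outside `E`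
  have hex : ∃ g : X → X, (⟨0, fun x => g (x 0)⟩ : Oper X) ∉ E := by
    by_contra hcon
    push Not at hcon
    exact hne (Pool.Agent.H690R2.CL.eq_univ_of_unary hE (p := β.p) (hDE p_mem) hp hcon)
  obtain ⟨g, hg⟩ := hex
  obtain ⟨i, hi⟩ := hfn g
  obtain ⟨j, hj⟩ := hfn fun x => β.ι (bb (c i) (β.ν x))
  have hbj : ∀ n, bb (c i) n ≤ hh β j n := by
    intro n
    have := le_hh β j n
    rw [hj] at this
    simpa [β.νι] using this
  have hm := hh_mono β j
  have hle : ∀ n, n ≤ hh β j n := fun n => (lt_hh β j n).le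
  have hhE : bar β (hh β j) ∉ E := by
    intro hmem
    refine hg ?_
    have h1 : (⟨0, fun x => β.ι (hh β j (β.ν (β.ι (aa (c i) (x 0)))))⟩ : Oper X) ∈ E :=
      hE.2 0 0 (bar β (hh β j)).2 (fun _ x => β.ι (aa (c i) (x 0))) hmem fun _ => hDE (a_mem i)
    have h2 := bin_comp hE hslow (hDE (dec_mem (c := c) hU hidle i)) (hE.1 0 0) h1
    have h3 : (fun x : Fin (0 + 1) → X => g (x 0)) = fun x => (fun x : Fin 2 → X =>
        if bb (c i) (aa (c i) (x 0)) ≤ β.ν (x 1) then β.fn i (x 0) else x 0)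
        ![x 0, β.ι (hh β j (β.ν (β.ι (aa (c i) (x 0)))))] := by
      funext x
      simp only [Matrix.cons_val_zero, Matrix.cons_val_one, β.νι]
      rw [if_pos (hbj _), hi]
    rw [h3]
    exact h2
  -- the clone of operations preserving `QQ` is everything
  have hEP : E ⊂ Pol (QQ β E (hh β j)) := by
    refine ⟨?_, ?_⟩
    · rintro ⟨r, e⟩ he u hu
      exact QQ_closed hE hslow hm hle he u hu
    · intro hcon
      refine hhE (hcon ?_)
      intro u hu
      exact QQ_h hE hslow hm hle (hu 0)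
  have huniv := hmax _ (isClone_Pol _) hEP
  have hs : (⟨0, fun x => β.ι (ss (c j) (β.ν (x 0)))⟩ : Oper X) ∈ Pol (QQ β E (hh β j)) := by
    rw [huniv]
    exact mem_univ _
  have hs2 : (fun n => β.ι (ss (c j) n)) ∈ QQ β E (hh β j) := by
    have h1 := hs (fun _ => β.ι) fun _ => QQ_ι hE hslow hm hle
    simpa only [β.νι] using h1
  obtain ⟨w, hw, k, hk⟩ := QQ_bound hE hslow hm hle hs2
  by_cases hZ : {n | w n ≤ hh β j n} ∈ 𝓤
  · set Z := {n | w n ≤ hh β j n} with hZdef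
    have hZu := hU Z hZ
    set θ : ℕ → ℕ := fun z => nx Z (hh β j z) with hθ
    have hθm : Monotone θ := fun _ _ hab => nx_mono hZu (hm hab)
    have hθh : ∀ z, hh β j z ≤ θ z := fun z => (nx_spec hZu _).2.le
    have hθi : ∀ z, z ≤ θ z := fun z => (hle z).trans (hθh z)
    have h1 : ∀ z, w z ≤ θ^[2] z := by
      intro z
      have h2 : w z ≤ w (nx Z z) := hw.mono (nx_spec hZu z).2.le
      have h3 : w (nx Z z) ≤ hh β j (nx Z z) := (nx_spec hZu z).1
      have h4 : nx Z z ≤ θ z := nx_mono hZu (hle z)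
      calc w z ≤ hh β j (nx Z z) := h2.trans h3
        _ ≤ hh β j (θ z) := hm h4
        _ ≤ θ (θ z) := hθh _
        _ = θ^[2] z := rfl
    have h2 : ∀ z, hh β j (w z) ≤ θ^[3] z := by
      intro z
      calc hh β j (w z) ≤ hh β j (θ^[2] z) := hm (h1 z)
        _ ≤ θ (θ^[2] z) := hθh _
        _ = θ^[3] z := rfl
    have h3 : ∀ k n, (fun z => hh β j (w z))^[k] n ≤ θ^[3 * k] n := by
      intro k n
      induction k with
      | zero => exact le_rfl
      | succ k ih =>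
        rw [Function.iterate_succ_apply', show 3 * (k + 1) = 3 + 3 * k by ring,
          Function.iterate_add_apply]
        exact (hm (hw.mono ih)).trans (h2 _)
    obtain ⟨n, hn⟩ := hS ∅ j (2 + 3 * k) ∅ Z hZ
    have h4 := hn.theta_lt hm hZu
    have h5 : n ≤ M β (ini β ∅ n) := by
      have h6 : β.ι n ∈ ini β ∅ n := (mem_ini β).2 (Or.inr ⟨n, le_rfl, rfl⟩)
      have h7 := le_M β h6
      rwa [β.νι] at h7
    have h6 : ss (c j) n ≤ θ^[2 + 3 * k] n := by
      rw [Function.iterate_add_apply]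
      refine (hk n).trans ((h1 _).trans ?_)
      exact hθm.iterate 2 (h3 k n)
    exact absurd (h4.trans_le (h6.trans (hθm.iterate _ h5))) (lt_irrefl _)
  · have hZ' : {n | hh β j n < w n} ∈ 𝓤 := by
      filter_upwards [Ultrafilter.compl_mem_iff_notMem.2 hZ] with n hn
      simpa using hn
    refine hhE ?_
    have hZu := hU _ hZ'
    set Z := {n | hh β j n < w n} with hZdef
    have h1 : (⟨0, fun x => β.ι (w (β.ν (β.ι (nx Z (β.ν (x 0))))))⟩ : Oper X) ∈ E :=
      hE.2 0 0 (bar β w).2 (fun _ x => β.ι (nx Z (β.ν (x 0)))) hw.mem fun _ =>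
        hDE (nx_mem hU hidle hZ')
    have h2 : (⟨1, fun x => β.ι (min (hh β j (β.ν (x 0))) (β.ν (x 1)))⟩ : Oper X) ∈ E :=
      hslow 1 _ fun x => ⟨_, 1, min_le_right _ _, rfl⟩
    have h3 := bin_comp hE hslow h2 (hE.1 0 0) h1
    have h4 : (bar β (hh β j)).2 = fun x : Fin (0 + 1) → X => (fun x : Fin 2 → X =>
        β.ι (min (hh β j (β.ν (x 0))) (β.ν (x 1))))
        ![x 0, β.ι (w (β.ν (β.ι (nx Z (β.ν (x 0))))))] := by
      funext x
      simp only [Matrix.cons_val_zero, Matrix.cons_val_one, β.νι, bar]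
      rw [min_eq_left]
      exact (hm (nx_spec hZu _).2.le).trans (nx_spec hZu (β.ν (x 0))).1.le
    show (⟨0, (bar β (hh β j)).2⟩ : Oper X) ∈ E
    rw [h4]
    exact h3

end Pool.Agent.H690R2.CQ
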