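import Pool.Agent.H690R2.CQ.Comb

/-!
The density argument: one more generic decoder
-/

set_option autoImplicit false
set_option linter.unusedSectionVars false

namespace Pool.Agent.H690R2.CQ

open Set

universe u

variable {X I : Type u} [DecidableEq X] {β : Base X I} {c : I → W X → ℕ}

theorem iterate_U_mono {F : Finset I} {m : ℕ} {B B' : Finset X} (h : B ⊆ B') (k : ℕ) :
    (U β c F m)^[k] B ⊆ (U β c F m)^[k] B' := by
  induction k generalizing B B' with
  | zero => exact h
  | succ k ih =>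
    rw [Function.iterate_succ_apply, Function.iterate_succ_apply]
    exact ih (U_mono (Finset.Subset.refl _) le_rfl h)

theorem subset_iterate_U {F : Finset I} {m : ℕ} {B : Finset X} {k l : ℕ} (h : k ≤ l) :
    (U β c F m)^[k] B ⊆ (U β c F m)^[l] B := by
  induction l, h using Nat.le_induction with
  | base => exact Finset.Subset.refl _
  | succ l _ ih =>
    rw [Function.iterate_succ_apply']
    exact ih.trans subset_U

/-- the new decoder `G` at index `i` is trivial on the relevant set -/
theorem U_sub [DecidableEq I] {F : Finset I} {i : I} (hi : i ∉ F) {G : W X → ℕ} {e m : ℕ}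
    {A K' Big : Finset X} (hK1 : ∀ x ∈ A, β.fn i x ∈ K') (hK2 : ∀ x ∈ A, β.ι (aa G x) ∈ K')
    (he : β.ι e ∈ K') (hBig : ∀ x ∈ Big, x ∉ A → aa G x = e) (hb : bb G e = m + 1) {N : ℕ}
    (hN : N ≤ m) {B : Finset X} (hKB : K' ⊆ B) (hB : B ⊆ Big) :
    U β (Function.update c i G) (insert i F) N B ⊆ U β c F N B := by
  intro y hy
  rw [mem_U] at hy
  rcases hy with h | ⟨n, hn, h⟩ | ⟨x, hx, x', hx', h⟩ | ⟨j, hj, x, hx, h1, h⟩ | ⟨j, hj, x, hx, h⟩
  · exact subset_U h
  · rw [← h]
    exact ι_mem_U hn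
  · exact (mem_U β).2 (Or.inr (Or.inr (Or.inl ⟨x, hx, x', hx', h⟩)))
  · rcases Finset.mem_insert.1 hj with rfl | hjF
    · rw [Function.update_self] at h1
      by_cases hxA : x ∈ A
      · exact subset_U (hKB (h ▸ hK1 x hxA))
      · rw [hBig x (hB hx) hxA, hb] at h1
        omega
    · have hne : j ≠ i := fun hji => hi (hji ▸ hjF)
      rw [Function.update_of_ne hne] at h1
      exact (mem_U β).2 (Or.inr (Or.inr (Or.inr (Or.inl ⟨j, hjF, x, hx, h1, h⟩))))
  · rcases Finset.mem_insert.1 hj with rfl | hjF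
    · rw [Function.update_self] at h
      by_cases hxA : x ∈ A
      · exact subset_U (hKB (h ▸ hK2 x hxA))
      · rw [hBig x (hB hx) hxA] at h
        exact subset_U (hKB (h ▸ he))
    · have hne : j ≠ i := fun hji => hi (hji ▸ hjF)
      rw [Function.update_of_ne hne] at h
      exact (mem_U β).2 (Or.inr (Or.inr (Or.inr (Or.inr ⟨j, hjF, x, hx, h⟩))))

/-- transfer of escaping computations -/
theorem Esc.transfer [DecidableEq I] {F : Finset I} {i : I} (hi : i ∉ F) {G : W X → ℕ} {e m : ℕ}
    {A K' Big : Finset X} (hK1 : ∀ x ∈ A, β.fn i x ∈ K') (hK2 : ∀ x ∈ A, β.ι (aa G x) ∈ K')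
    (he : β.ι e ∈ K') (hBig : ∀ x ∈ Big, x ∉ A → aa G x = e) (hb : bb G e = m + 1)
    {h : ℕ → ℕ} (hm : Monotone h) {Y : Set ℕ} {s : ℕ} (hs : s ≤ m) {base : Finset X} {k : ℕ}
    (hbase : (U β c F m)^[k] base ⊆ Big) :
    ∀ (r t : ℕ), r + t ≤ k → ∀ {B C : Finset X}, K' ⊆ B → B ⊆ (U β c F m)^[t] base → C ⊆ B →
      Esc β c F h Y s r B → Esc β (Function.update c i G) (insert i F) h Y s r C := by
  intro r
  induction r with
  | zero =>
    intro t _ B C _ _ hC he
    exact (M_mono β hC).trans_lt he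
  | succ r ih =>
    intro t hrt B C hKB hB hC hesc
    obtain ⟨N, hN, h1, h2⟩ := hesc
    have hNm : N ≤ m := by
      have h3 : N ≤ M β (U β c F N B) := le_M_U
      have h4 := h2.lt
      omega
    have hBB : B ⊆ Big := hB.trans ((subset_iterate_U (by omega)).trans hbase)
    refine ⟨N, hN, (hm (M_mono β hC)).trans_lt h1, ?_⟩
    refine ih (t + 1) (by omega) (hKB.trans subset_U) ?_ ?_ h2
    · rw [Function.iterate_succ_apply']
      exact U_mono (Finset.Subset.refl _) hNm hB
    · exact (U_mono (Finset.Subset.refl _) le_rfl hC).trans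
        (U_sub hi hK1 hK2 he hBig hb hNm hKB hBB)

theorem step [DecidableEq I] {F : Finset I} {i : I} (hi : i ∉ F)
    (hF : ∀ k K n, Dag β c F k K n) (k : ℕ) (K : Finset X) (n : ℕ) (A : Finset (W X))
    (G₀ : W X → ℕ) :
    ∃ (A' : Finset (W X)) (G₁ : W X → ℕ), (∀ w ∈ A, G₁ w = G₀ w) ∧
      ∀ G : W X → ℕ, (∀ w ∈ A', G w = G₁ w) →
        Dag β (Function.update c i G) (insert i F) k K n := by
  classical
  -- the finite condition
  let AX : Finset X := A.preimage Sum.inl Sum.inl_injective.injOn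
  obtain ⟨e, he⟩ : ∃ e : ℕ, ∀ e' ≥ e, (Sum.inr (Sum.inl e') : W X) ∉ A ∧
      (Sum.inr (Sum.inr e') : W X) ∉ A := by
    let f : W X → ℕ := fun w => match w with
      | Sum.inl _ => 0
      | Sum.inr (Sum.inl n) => n
      | Sum.inr (Sum.inr n) => n
    refine ⟨A.sup f + 1, fun e' he' => ⟨fun h => ?_, fun h => ?_⟩⟩
    · have : f (Sum.inr (Sum.inl e')) ≤ A.sup f := Finset.le_sup h
      have h2 : e' ≤ A.sup f := this
      omega
    · have : f (Sum.inr (Sum.inr e')) ≤ A.sup f := Finset.le_sup h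
      have h2 : e' ≤ A.sup f := this
      omega
  let K' : Finset X := K ∪ AX.image (β.fn i) ∪ AX.image (fun x => β.ι (G₀ (Sum.inl x))) ∪ {β.ι e}
  have hKK' : K ⊆ K' := by
    intro x hx
    simp only [K', Finset.mem_union]
    exact Or.inl (Or.inl (Or.inl hx))
  -- the function g
  have hg : ∀ z, ∃ m, ∀ Y : I → Set ℕ, (∀ x, z ≤ x → x < m → ∃ j ∈ F, x ∈ Y j) →
    ∃ j ∈ F, ∃ n', ss (c j) n' ≤ m ∧
      Esc β c F (hh β j) (Y j) (ss (c j) n') k (ini β K' n') := fun z => hF k K' z
  choose g hg using hg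
  let L0 : ℕ := n + e
  let Bs : ℕ → Finset X := fun t => Nat.rec (ini β K' L0)
    (fun _ B => U β c F (g (hh β i (M β B) + 1)) B) t
  have hBs0 : Bs 0 = ini β K' L0 := rfl
  have hBs1 : ∀ t, Bs (t + 1) = U β c F (g (hh β i (M β (Bs t)) + 1)) (Bs t) := fun t => rfl
  let m : ℕ := L0 + (M β (Bs k) + 1) + ∑ t ∈ Finset.range k, g (hh β i (M β (Bs t)) + 1)
  have hm0 : L0 ≤ m := by simp only [m]; omega
  have hm1 : M β (Bs k) + 1 ≤ m := by simp only [m]; omega
  have hm2 : ∀ t < k, g (hh β i (M β (Bs t)) + 1) ≤ m := by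
    intro t ht
    have : g (hh β i (M β (Bs t)) + 1) ≤ ∑ t ∈ Finset.range k, g (hh β i (M β (Bs t)) + 1) :=
      Finset.single_le_sum (f := fun t => g (hh β i (M β (Bs t)) + 1)) (fun _ _ => Nat.zero_le _)
        (Finset.mem_range.2 ht)
    simp only [m]
    omega
  let base : Finset X := ini β K' m
  let Big : Finset X := (U β c F m)^[k] base
  have hBsub : ∀ t ≤ k, Bs t ⊆ (U β c F m)^[t] base := by
    intro t
    induction t with
    | zero =>
      intro _
      rw [hBs0]
      exact ini_mono (Finset.Subset.refl _) hm0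
    | succ t ih =>
      intro ht
      rw [hBs1, Function.iterate_succ_apply']
      exact U_mono (Finset.Subset.refl _) (hm2 t (by omega)) (ih (by omega))
  have hK'Bs : ∀ t, K' ⊆ Bs t := by
    intro t
    induction t with
    | zero => exact subset_ini
    | succ t ih =>
      rw [hBs1]
      exact ih.trans subset_U
  have hnBs : ∀ t, n ≤ M β (Bs t) := by
    intro t
    induction t with
    | zero =>
      have h1 : β.ι n ∈ Bs 0 := (mem_ini β).2 (Or.inr ⟨n, Nat.le_add_right _ _, rfl⟩)
      have h2 := le_M β h1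
      rwa [β.νι] at h2
    | succ t ih =>
      rw [hBs1]
      exact ih.trans (M_mono β subset_U)
  let G₁ : W X → ℕ := fun w => if w ∈ A then G₀ w else
    match w with
      | Sum.inl _ => e
      | Sum.inr (Sum.inl _) => m + 1
      | Sum.inr (Sum.inr _) => M β (Bs k) + 1
  refine ⟨A ∪ Big.image Sum.inl ∪ {Sum.inr (Sum.inl e), Sum.inr (Sum.inr L0)}, G₁, fun w hw => ?_,
    fun G hG => ?_⟩
  · simp only [G₁, if_pos hw]
  have hGA : ∀ x ∈ AX, aa G x = G₀ (Sum.inl x) := by
    intro x hx
    have hxA : (Sum.inl x : W X) ∈ A := Finset.mem_preimage.1 hx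
    have h1 := hG (Sum.inl x) (by simp [hxA])
    show G (Sum.inl x) = _
    rw [h1]
    simp only [G₁, if_pos hxA]
  have hBig : ∀ x ∈ Big, x ∉ AX → aa G x = e := by
    intro x hx hxA
    have hxA' : (Sum.inl x : W X) ∉ A := fun h => hxA (Finset.mem_preimage.2 h)
    have h1 := hG (Sum.inl x) (by simp [hx])
    show G (Sum.inl x) = _
    rw [h1]
    simp only [G₁, if_neg hxA']
  have hb : bb G e = m + 1 := by
    have h1 := hG (Sum.inr (Sum.inl e)) (by simp)
    show G (Sum.inr (Sum.inl e)) = _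
    rw [h1]
    simp only [G₁, if_neg (he e le_rfl).1]
  have hs : ss G L0 = M β (Bs k) + 1 := by
    have h1 := hG (Sum.inr (Sum.inr L0)) (by simp)
    show G (Sum.inr (Sum.inr L0)) = _
    rw [h1]
    simp only [G₁, if_neg (he L0 (Nat.le_add_left _ _)).2]
  have hK1 : ∀ x ∈ AX, β.fn i x ∈ K' := by
    intro x hx
    simp only [K', Finset.mem_union, Finset.mem_image]
    exact Or.inl (Or.inl (Or.inr ⟨x, hx, rfl⟩))
  have hK2 : ∀ x ∈ AX, β.ι (aa G x) ∈ K' := by
    intro x hx
    rw [hGA x hx]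
    simp only [K', Finset.mem_union, Finset.mem_image]
    exact Or.inl (Or.inr ⟨x, hx, rfl⟩)
  have heK : β.ι e ∈ K' := by simp [K']
  refine ⟨m, fun Y hY => ?_⟩
  by_cases hcase : ∀ t < k, ∃ N ∈ Y i, hh β i (M β (Bs t)) < N ∧
      N ≤ g (hh β i (M β (Bs t)) + 1)
  · -- the set `Y i` has many points
    refine ⟨i, Finset.mem_insert_self _ _, L0, ?_, ?_⟩
    · rw [Function.update_self, hs]
      exact hm1
    · rw [Function.update_self, hs]
      have key : ∀ r t, r + t = k → ∀ C ⊆ Bs t, Esc β (Function.update c i G) (insert i F)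
          (hh β i) (Y i) (M β (Bs k) + 1) r C := by
        intro r
        induction r with
        | zero =>
          intro t ht C hC
          obtain rfl : t = k := by omega
          exact Nat.lt_succ_of_le (M_mono β hC)
        | succ r ih =>
          intro t ht C hC
          obtain ⟨N, hN, h1, h2⟩ := hcase t (by omega)
          refine ⟨N, hN, (hh_mono β i (M_mono β hC)).trans_lt h1, ?_⟩
          refine ih (t + 1) (by omega) _ ?_
          rw [hBs1]
          refine (U_mono (Finset.Subset.refl _) h2 hC).trans ?_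
          exact U_sub hi hK1 hK2 heK hBig hb (hm2 t (by omega)) (hK'Bs t)
            ((hBsub t (by omega)).trans (subset_iterate_U (by omega)))
      exact key k 0 (by omega) _ (ini_mono hKK' le_rfl)
  · push Not at hcase
    obtain ⟨t, ht, hcase⟩ := hcase
    obtain ⟨j, hj, n', h1, h2⟩ := hg (hh β i (M β (Bs t)) + 1) Y (by
      intro x hx1 hx2
      have hnx : n ≤ x := by
        have h3 := hnBs t
        have h4 := lt_hh β i (M β (Bs t))
        omega
      obtain ⟨j, hj, hxj⟩ := hY x hnx (hx2.trans_le (hm2 t ht))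
      rcases Finset.mem_insert.1 hj with rfl | hj
      · have := hcase x hxj (by omega)
        omega
      · exact ⟨j, hj, hxj⟩)
    have hne : j ≠ i := by
      rintro rfl
      exact hi hj
    have hsm : ss (c j) n' ≤ m := h1.trans (hm2 t ht)
    refine ⟨j, Finset.mem_insert_of_mem hj, n', ?_, ?_⟩
    · rw [Function.update_of_ne hne]
      exact hsm
    · rw [Function.update_of_ne hne]
      have hn' : n' ≤ m := by
        have h3 := h2.lt
        have h4 : β.ι n' ∈ ini β K' n' := (mem_ini β).2 (Or.inr ⟨n', le_rfl, rfl⟩)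
        have h5 := le_M β h4
        rw [β.νι] at h5
        omega
      exact h2.transfer hi hK1 hK2 heK hBig hb (hh_mono β j) hsm (base := base) (k := k)
        (Finset.Subset.refl _) k 0 (by omega) subset_ini
        (ini_mono (Finset.Subset.refl _) hn') (ini_mono hKK' le_rfl)

end Pool.Agent.H690R2.CQ
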