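import Pool.Agent.H690R2.CQ.Step

/-!
The generic decoders and the ultrafilter
-/

set_option autoImplicit false
set_option linter.unusedSectionVars false

namespace Pool.Agent.H690R2.CQ

open Set Cardinal Pool.Agent.Helper669.CloneComb

universe u

variable {X I : Type u} [DecidableEq X] {β : Base X I} {c : I → W X → ℕ}

theorem dense_interior [DecidableEq I] {F : Finset I} {i : I} (hi : i ∉ F)
    (hF : ∀ k K n, Dag β c F k K n) (k : ℕ) (K : Finset X) (n : ℕ) :
    Dense (interior {G : W X → ℕ | Dag β (Function.update c i G) (insert i F) k K n}) := by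
  rw [dense_iff_inter_open]
  rintro V hV ⟨G₀, hG₀⟩
  obtain ⟨A, u, hu, hAV⟩ := isOpen_pi_iff.1 hV G₀ hG₀
  obtain ⟨A', G₁, h1, h2⟩ := step hi hF k K n A G₀
  refine ⟨G₁, hAV fun w hw => ?_, ?_⟩
  · rw [h1 w hw]
    exact (hu w hw).2
  · rw [mem_interior]
    refine ⟨(A' : Set (W X)).pi fun w => {G₁ w}, fun G hG => h2 G fun w hw => hG w hw, ?_, ?_⟩
    · exact isOpen_set_pi A'.finite_toSet fun _ _ => isOpen_discrete _
    · exact fun w _ => rfl

theorem exists_c [LinearOrder I] [WellFoundedLT I] [Infinite X] (hXI : #X < #I)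
    (hord : ∀ α : I, #(Iio α) < #I)
    (hBC : ∀ 𝓓 : Set (Set (W X → ℕ)), #𝓓 < #I → (∀ D ∈ 𝓓, IsOpen D ∧ Dense D) →
      (⋂₀ 𝓓).Nonempty) :
    ∃ c : I → W X → ℕ, ∀ F k K n, Dag β c F k K n := by
  classical
  have hinh : Inhabited (W X → ℕ) := ⟨fun _ => 0⟩
  have hIinf : ℵ₀ < #I := (aleph0_le_mk X).trans_lt hXI
  obtain ⟨c, hc⟩ := exists_rec (S := W X → ℕ)
    (fun α c s => ∀ F : Finset I, (∀ j ∈ F, j < α) → (∀ k K n, Dag β c F k K n) →
      ∀ k K n, Dag β (Function.update c α s) (insert α F) k K n) (by
      intro α c c' s hcc hR F hF hd k K n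
      refine (hR F hF (fun k K n => (hd k K n).congr fun j hj => (hcc j (hF j hj)).symm)
        k K n).congr fun j hj => ?_
      rcases Finset.mem_insert.1 hj with rfl | hj
      · simp
      · rw [Function.update_of_ne (hF j hj).ne, Function.update_of_ne (hF j hj).ne,
          hcc j (hF j hj)]) (by
      intro α c
      let emb : Iio α ↪ I := Function.Embedding.subtype _
      let DD : Finset (Iio α) × ℕ × Finset X × ℕ → Set (W X → ℕ) := fun q =>
        if ∀ k K n, Dag β c (q.1.map emb) k K n then
          interior {G : W X → ℕ | Dag β (Function.update c α G) (insert α (q.1.map emb))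
            q.2.1 q.2.2.1 q.2.2.2}
        else univ
      have hcard : #(range DD) < #I := by
        refine mk_range_le.trans_lt ?_
        have h1 : #(Finset (Iio α)) < #I := by
          rcases finite_or_infinite (Iio α) with h | h
          · exact (Cardinal.lt_aleph0_of_finite _).trans hIinf
          · rw [mk_finset_of_infinite]
            exact hord α
        have h2 : #(Finset X) < #I := by rwa [mk_finset_of_infinite]
        have h3 : #(Finset X × ℕ) < #I := by
          rw [mk_prod, lift_uzero, mk_nat, lift_aleph0]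
          exact mul_lt_of_lt hIinf.le h2 hIinf
        have h4 : #(ℕ × Finset X × ℕ) < #I := by
          rw [mk_prod, lift_uzero, mk_nat, lift_aleph0]
          exact mul_lt_of_lt hIinf.le hIinf h3
        rw [mk_prod, lift_id, lift_id]
        exact mul_lt_of_lt hIinf.le h1 h4
      obtain ⟨s, hs⟩ := hBC (range DD) hcard (by
        rintro _ ⟨q, rfl⟩
        by_cases hq : ∀ k K n, Dag β c (q.1.map emb) k K n
        · simp only [DD, if_pos hq]
          refine ⟨isOpen_interior, dense_interior ?_ hq _ _ _⟩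
          intro hα
          obtain ⟨a, _, ha⟩ := Finset.mem_map.1 hα
          have h5 : (a : I) < α := a.2
          have h6 : (a : I) = α := ha
          rw [h6] at h5
          exact lt_irrefl α h5
        · simp only [DD, if_neg hq]
          exact ⟨isOpen_univ, dense_univ⟩)
      refine ⟨s, fun F hF hd k K n => ?_⟩
      have hFm : ∃ F' : Finset (Iio α), F'.map emb = F := by
        refine ⟨F.subtype (· ∈ Iio α), ?_⟩
        rw [Finset.subtype_map]
        exact Finset.filter_true_of_mem hF
      obtain ⟨F', rfl⟩ := hFm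
      have h1 := hs (DD (F', k, K, n)) ⟨_, rfl⟩
      simp only [DD, if_pos hd] at h1
      have h2 : s ∈ {G : W X → ℕ | Dag β (Function.update c α G) (insert α (F'.map emb)) k K n} :=
        interior_subset h1
      exact h2)
  refine ⟨c, fun F => ?_⟩
  induction F using Finset.induction_on_max with
  | empty => exact fun k K n => dag_empty k K n
  | insert α F hF ih =>
    intro k K n
    have := hc α F hF ih k K n
    rwa [Function.update_eq_self] at this

variable (β c)

/-- sparse sets -/
def Sparse (F : Finset I) (j : I) (k : ℕ) (K : Finset X) (Y : Set ℕ) : Prop :=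
  ∀ n, ¬ Esc β c F (hh β j) Y (ss (c j) n) k (ini β K n)

variable {β c}

theorem Sparse.mono {F F' : Finset I} {j : I} {k k' : ℕ} {K K' : Finset X} {Y : Set ℕ}
    (hF : F ⊆ F') (hk : k ≤ k') (hK : K ⊆ K') (h : Sparse β c F j k K Y) :
    Sparse β c F' j k' K' Y := fun n he =>
  h n ((he.of_le (hh_mono β j) hk).anti (hh_mono β j) hF (ini_mono hK le_rfl))

theorem Sparse.union {F : Finset I} {j : I} {k k' : ℕ} {K : Finset X} {Y Y' : Set ℕ}
    (h : Sparse β c F j k K Y) (h' : Sparse β c F j k' K Y') :
    Sparse β c F j (k + k') K (Y ∪ Y') := fun n he => by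
  rcases he.union (hh_mono β j) _ k k' rfl with h1 | h1
  · exact h n h1
  · exact h' n h1

theorem sparse_empty {F : Finset I} {j : I} {k : ℕ} {K : Finset X} :
    Sparse β c F j (k + 1) K ∅ := by
  rintro n ⟨N, hN, _⟩
  exact hN

variable (β c)

/-- the filter dual to the ideal generated by sparse and bounded sets -/
def filt : Filter ℕ where
  sets := {S | ∃ (F : Finset I) (k : ℕ) (K : Finset X) (n : ℕ) (Y : I → Set ℕ),
    (∀ j ∈ F, Sparse β c F j k K (Y j)) ∧ ∀ x, n ≤ x → (∀ j ∈ F, x ∉ Y j) → x ∈ S}
  univ_sets := ⟨∅, 0, ∅, 0, fun _ => ∅, fun j hj => absurd hj (Finset.notMem_empty j),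
    fun _ _ _ => mem_univ _⟩
  sets_of_superset := by
    rintro S T ⟨F, k, K, n, Y, hY, hS⟩ hST
    exact ⟨F, k, K, n, Y, hY, fun x hx hx' => hST (hS x hx hx')⟩
  inter_sets := by
    classical
    rintro S T ⟨F, k, K, n, Y, hY, hS⟩ ⟨F', k', K', n', Y', hY', hT⟩
    refine ⟨F ∪ F', (k + 1) + (k' + 1), K ∪ K', max n n',
      fun j => (if j ∈ F then Y j else ∅) ∪ (if j ∈ F' then Y' j else ∅), ?_, ?_⟩
    · intro j _
      refine Sparse.union ?_ ?_
      · by_cases hj : j ∈ F
        · rw [if_pos hj]
          exact (hY j hj).mono Finset.subset_union_left (Nat.le_succ _) Finset.subset_union_left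
        · rw [if_neg hj]
          exact sparse_empty
      · by_cases hj : j ∈ F'
        · rw [if_pos hj]
          exact (hY' j hj).mono Finset.subset_union_right (Nat.le_succ _) Finset.subset_union_right
        · rw [if_neg hj]
          exact sparse_empty
    · intro x hx hx'
      refine ⟨hS x ((le_max_left _ _).trans hx) fun j hj h =>
        hx' j (Finset.mem_union_left _ hj) (Or.inl (by rwa [if_pos hj])),
        hT x ((le_max_right _ _).trans hx) fun j hj h =>
        hx' j (Finset.mem_union_right _ hj) (Or.inr (by rwa [if_pos hj]))⟩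

variable {β c}

theorem exists_ultra' (hd : ∀ F k K n, Dag β c F k K n) :
    ∃ 𝓤 : Ultrafilter ℕ, (∀ n, {x | n ≤ x} ∈ 𝓤) ∧
      ∀ (F : Finset I) (j : I) (k : ℕ) (K : Finset X) (Y : Set ℕ), Y ∈ 𝓤 →
        ∃ n, Esc β c F (hh β j) Y (ss (c j) n) k (ini β K n) := by
  classical
  have hne : (filt β c).NeBot := by
    refine ⟨fun hb => ?_⟩
    have h1 : (∅ : Set ℕ) ∈ filt β c := by rw [hb]; exact Filter.mem_bot
    obtain ⟨F, k, K, n, Y, hY, hS⟩ := h1
    obtain ⟨m, hm⟩ := hd F k K n
    obtain ⟨j, hj, n', _, h2⟩ := hm Y fun x hx _ => by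
      by_contra hcon
      push Not at hcon
      exact hS x hx hcon
    exact hY j hj n' h2
  obtain ⟨𝓤, h𝓤⟩ := Ultrafilter.exists_le (filt β c)
  refine ⟨𝓤, fun n => h𝓤 ?_, fun F j k K Y hY => ?_⟩
  · exact ⟨∅, 0, ∅, n, fun _ => ∅, fun j hj => absurd hj (Finset.notMem_empty j),
      fun x hx _ => hx⟩
  · by_contra hcon
    push Not at hcon
    have hsp : Sparse β c F j k K Y := hcon
    have h1 : Yᶜ ∈ 𝓤 := h𝓤 ⟨insert j F, k + 1, K, 0,
      fun j' => if j' = j then Y else ∅, fun j' _ => by
        by_cases h : j' = j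
        · subst h
          simp only [if_true]
          exact hsp.mono (Finset.subset_insert _ _) (Nat.le_succ _) (Finset.Subset.refl _)
        · simp only [if_neg h]
          exact sparse_empty, fun x _ hx hxY => hx j (Finset.mem_insert_self _ _) (by
            simp only [if_true]
            exact hxY)⟩
    exact (Ultrafilter.compl_mem_iff_notMem.1 h1) hY

end Pool.Agent.H690R2.CQ
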